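import Pool.Agent.W236.SC.PFinal

/-!
# Lattice quotients from sorting alternating subword complexes

All finite Coxeter systems.
-/

set_option autoImplicit false

namespace Pool.Agent.Results.MP_5a5888_co.SortingAlternating

open Pool.Agent.W236.SWC

universe u v

/-- for every finite Coxeter system `cs`, every sorting alternating word `Q` and every `ω`, the relation `≡` is
a lattice congruence of `[1, ω]`, and sending the class of `x` to the facet `I` with `x ∈ L(I)` is a
bijection from `[1, ω] / ≡` to the acyclic facets, which carries the cover relations (oriented upward)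
exactly to the extremal increasing flips -/
theorem result {B : Type u} [Fintype B] [DecidableEq B] {M : CoxeterMatrix B} {W : Type v} [Group W]
    [Finite W] (cs : CoxeterSystem M W) (Q : List B) (ω : W) (hS : Sorting cs Q)
    (hQ : Alternating cs Q) :
    IsLatticeCongruence cs Q ω ∧
    ∃ e : Cls cs Q ω ≃ {I : Finset (Fin Q.length) // Acyclic cs Q ω I},
      (∀ x : Ival cs ω, x.1 ∈ LinExt cs Q (e (Quot.mk _ x)).1) ∧
      ∀ a b : Cls cs Q ω, Cls.cov cs Q ω a b ↔ Arc cs Q (e a).1 (e b).1 :=
  sorting cs Q ω hS hQ

end Pool.Agent.Results.MP_5a5888_co.SortingAlternating
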